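import Pool.Agent.H97.PK.Targets2

/-!
# ORD: order-`m` cells count `min (N, m)`
-/

namespace Pool.Agent.H87.PK

open Pool.Agent.H97.PK

namespace ORD

variable {n : ℕ}

/-- number of predecessors -/
noncomputable def rk (f : Fin n → ℝ) (i : Fin n) : ℕ :=
  (Finset.univ.filter (fun j => f j < f i ∨ (f j = f i ∧ j < i))).card

theorem rk_lt {f : Fin n → ℝ} {i j : Fin n} (h : f i < f j ∨ (f i = f j ∧ i < j)) :
    rk f i < rk f j := by
  apply Finset.card_lt_card
  rw [Finset.ssubset_iff_of_subset]
  · refine ⟨i, ?_, ?_⟩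
    · rw [Finset.mem_filter]; exact ⟨Finset.mem_univ _, h⟩
    · rw [Finset.mem_filter]
      rintro ⟨-, h1 | h1⟩
      · exact lt_irrefl _ h1
      · exact lt_irrefl _ h1.2
  · intro k hk
    rw [Finset.mem_filter] at hk ⊢
    refine ⟨Finset.mem_univ _, ?_⟩
    rcases hk.2 with h1 | h1 <;> rcases h with h2 | h2
    · exact Or.inl (h1.trans h2)
    · exact Or.inl (h2.1 ▸ h1)
    · exact Or.inl (h1.1 ▸ h2)
    · exact Or.inr ⟨h1.1.trans h2.1, h1.2.trans h2.2⟩

theorem tri (f : Fin n → ℝ) (i j : Fin n) :
    (f i < f j ∨ (f i = f j ∧ i < j)) ∨ i = j ∨ (f j < f i ∨ (f j = f i ∧ j < i)) := by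
  rcases lt_trichotomy (f i) (f j) with h | h | h
  · exact Or.inl (Or.inl h)
  · rcases lt_trichotomy i j with h' | h' | h'
    · exact Or.inl (Or.inr ⟨h, h'⟩)
    · exact Or.inr (Or.inl h')
    · exact Or.inr (Or.inr (Or.inr ⟨h.symm, h'⟩))
  · exact Or.inr (Or.inr (Or.inl h))

theorem rk_inj (f : Fin n → ℝ) : Function.Injective (rk f) := by
  intro i j hij
  rcases tri f i j with h | h | h
  · exact absurd hij (rk_lt h).ne
  · exact h
  · exact absurd hij.symm (rk_lt h).ne

end ORD

open ORD in
theorem pf_ord : T_ORD := by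
  intro n m f r
  set F := Finset.univ.filter (fun i => f i ≤ r) with hF
  have himg : F.image (rk f) = Finset.range F.card := by
    apply Finset.eq_of_subset_of_card_le
    · intro k hk
      rw [Finset.mem_image] at hk
      obtain ⟨i, hi, rfl⟩ := hk
      rw [Finset.mem_range]
      apply Finset.card_lt_card
      rw [Finset.ssubset_iff_of_subset]
      · refine ⟨i, hi, ?_⟩
        rw [Finset.mem_filter]
        rintro ⟨-, h1 | h1⟩
        · exact lt_irrefl _ h1
        · exact lt_irrefl _ h1.2
      · intro j hj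
        rw [hF, Finset.mem_filter] at hi ⊢
        rw [Finset.mem_filter] at hj
        refine ⟨Finset.mem_univ _, ?_⟩
        rcases hj.2 with h1 | h1
        · exact h1.le.trans hi.2
        · exact h1.1.le.trans hi.2
    · rw [Finset.card_range, Finset.card_image_of_injective _ (rk_inj f)]
  have h1 : (Finset.univ.filter (fun i => f i ≤ r ∧
      (Finset.univ.filter (fun j => f j < f i ∨ (f j = f i ∧ j < i))).card < m)) =
      F.filter (fun i => rk f i < m) := by
    ext i
    rw [hF, Finset.mem_filter, Finset.mem_filter, Finset.mem_filter]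
    unfold rk
    tauto
  rw [h1]
  have h2 : (F.filter (fun i => rk f i < m)).card =
      ((F.filter (fun i => rk f i < m)).image (rk f)).card :=
    (Finset.card_image_of_injective _ (rk_inj f)).symm
  have h3 : (F.filter (fun i => rk f i < m)).image (rk f) = Finset.range (min F.card m) := by
    ext k
    have h4 : k ∈ F.image (rk f) ↔ k < F.card := by rw [himg, Finset.mem_range]
    rw [Finset.mem_image] at h4
    rw [Finset.mem_image, Finset.mem_range, lt_min_iff, ← h4]
    constructor
    · rintro ⟨i, hi, rfl⟩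
      rw [Finset.mem_filter] at hi
      exact ⟨⟨i, hi.1, rfl⟩, hi.2⟩
    · rintro ⟨⟨i, hi, rfl⟩, h5⟩
      exact ⟨i, Finset.mem_filter.2 ⟨hi, h5⟩, rfl⟩
  rw [h2, h3, Finset.card_range]

end Pool.Agent.H87.PK
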