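import Pool.Agent.H97.PK.Targets2

/-!
# POL: the volume of a star-shaped set inside balls is a concave function of `r ^ d`
-/

open MeasureTheory Set Metric
open scoped ENNReal

namespace Pool.Agent.H87.PK

open Pool.Agent.H97.PK

namespace POL

variable {d : ℕ}

/-- polar coordinates -/
theorem polar (hd : 1 ≤ d) (A : Set (E d)) (hA : MeasurableSet A) :
    volume A = ∫⁻ θ : sphere (0 : E d) 1,
      (Measure.volumeIoiPow (Module.finrank ℝ (E d) - 1)) {ρ : Ioi (0 : ℝ) | (ρ : ℝ) • (θ : E d) ∈ A}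
        ∂(volume : Measure (E d)).toSphere := by
  have : Nonempty (Fin d) := ⟨⟨0, hd⟩⟩
  have h1 : volume A = volume (A ∩ ({0}ᶜ : Set (E d))) := by
    rw [← sdiff_eq, measure_sdiff_null (measure_singleton _)]
  have h2 : volume (A ∩ ({0}ᶜ : Set (E d))) =
      (volume : Measure (E d)).comap (Subtype.val : ({0}ᶜ : Set (E d)) → E d)
        (Subtype.val ⁻¹' A) := by
    rw [comap_subtype_coe_apply (measurableSet_singleton _).compl, Subtype.image_preimage_coe,
      inter_comm]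
  have h3 := (volume : Measure (E d)).measurePreserving_homeomorphUnitSphereProd.symm
    (homeomorphUnitSphereProd (E d)).toMeasurableEquiv
  have hm : MeasurableSet (Subtype.val ⁻¹' A : Set ({0}ᶜ : Set (E d))) := measurable_subtype_coe hA
  have h4 := h3.measure_preimage hm.nullMeasurableSet
  rw [h1, h2, ← h4, Measure.prod_apply (h3.measurable hm)]
  rfl

theorem vdiff (A : Set (E d)) (hA : MeasurableSet A) {a b : ℝ} (hab : a ≤ b) :
    (volume (A ∩ (closedBall 0 b \ closedBall 0 a))).toReal =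
      (volume (A ∩ closedBall 0 b)).toReal - (volume (A ∩ closedBall 0 a)).toReal := by
  have h1 : A ∩ (closedBall (0 : E d) b \ closedBall 0 a) =
      (A ∩ closedBall 0 b) \ (A ∩ closedBall 0 a) := by
    ext x
    simp only [mem_inter_iff, mem_sdiff]
    tauto
  have hfin : ∀ r : ℝ, volume (A ∩ closedBall (0 : E d) r) ≠ ∞ := fun r =>
    ((measure_mono inter_subset_right).trans_lt measure_closedBall_lt_top).ne
  have hsub : A ∩ closedBall (0 : E d) a ⊆ A ∩ closedBall 0 b :=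
    inter_subset_inter_right _ (closedBall_subset_closedBall hab)
  rw [h1, measure_sdiff hsub (hA.inter measurableSet_closedBall).nullMeasurableSet (hfin a),
    ENNReal.toReal_sub_of_le (measure_mono hsub) (hfin b)]

theorem norm_smul_sph (θ : sphere (0 : E d) 1) (ρ : Ioi (0 : ℝ)) : ‖(ρ : ℝ) • (θ : E d)‖ = ρ := by
  have h1 : ‖(θ : E d)‖ = 1 := by
    have := θ.2
    rwa [mem_sphere_zero_iff_norm] at this
  rw [norm_smul, h1, mul_one, Real.norm_of_nonneg ρ.2.le]

/-- the inequality for sets star-shaped with respect to `0` -/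
theorem star0 (hd : 1 ≤ d) (C : Set (E d)) (hC : MeasurableSet C)
    (hst : ∀ y ∈ C, ∀ t : ℝ, 0 < t → t ≤ 1 → t • y ∈ C) (r₀ r₁ r₂ : ℝ)
    (_h0 : 0 ≤ r₀) (_h01 : r₀ ≤ r₁) (_h12 : r₁ ≤ r₂) :
    volume (C ∩ (closedBall 0 r₂ \ closedBall 0 r₁)) *
        volume (closedBall (0 : E d) r₁ \ closedBall 0 r₀) ≤
      volume (C ∩ (closedBall 0 r₁ \ closedBall 0 r₀)) *
        volume (closedBall (0 : E d) r₂ \ closedBall 0 r₁) := by
  set m := Measure.volumeIoiPow (Module.finrank ℝ (E d) - 1) with hm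
  set σ := (volume : Measure (E d)).toSphere with hσ
  set M : ℝ → ℝ → ℝ≥0∞ := fun a b => m {ρ : Ioi (0 : ℝ) | a < (ρ : ℝ) ∧ (ρ : ℝ) ≤ b} with hM
  have hball : ∀ (a b : ℝ) (θ : sphere (0 : E d) 1) (ρ : Ioi (0 : ℝ)),
      (ρ : ℝ) • (θ : E d) ∈ closedBall (0 : E d) b \ closedBall 0 a ↔ a < (ρ : ℝ) ∧ (ρ : ℝ) ≤ b := by
    intro a b θ ρ
    rw [mem_sdiff, mem_closedBall_zero_iff, mem_closedBall_zero_iff, norm_smul_sph, not_le,
      and_comm]
  have hmd : ∀ a b : ℝ, MeasurableSet (closedBall (0 : E d) b \ closedBall 0 a) := fun a b =>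
    measurableSet_closedBall.diff measurableSet_closedBall
  have hvol : ∀ a b : ℝ, volume (closedBall (0 : E d) b \ closedBall 0 a) = M a b * σ univ := by
    intro a b
    rw [polar hd _ (hmd a b)]
    simp only [hball]
    rw [lintegral_const]
  have hS0 : σ univ ≠ 0 := by
    have : Nonempty (Fin d) := ⟨⟨0, hd⟩⟩
    rw [hσ, Measure.toSphere_apply_univ]
    refine mul_ne_zero ?_ (measure_ball_pos _ _ one_pos).ne'
    rw [finrank_euclideanSpace, Fintype.card_fin]
    exact_mod_cast (by omega : d ≠ 0)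
  have hMfin : ∀ a b : ℝ, M a b ≠ ∞ := by
    intro a b h
    have h1 := hvol a b
    rw [h, ENNReal.top_mul hS0] at h1
    exact ((measure_mono sdiff_subset).trans_lt measure_closedBall_lt_top).ne h1
  have key : volume (C ∩ (closedBall 0 r₂ \ closedBall 0 r₁)) * M r₀ r₁ ≤
      volume (C ∩ (closedBall 0 r₁ \ closedBall 0 r₀)) * M r₁ r₂ := by
    rw [polar hd _ (hC.inter (hmd _ _)), polar hd _ (hC.inter (hmd _ _)),
      ← lintegral_mul_const' _ _ (hMfin _ _), ← lintegral_mul_const' _ _ (hMfin _ _)]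
    refine lintegral_mono fun θ => ?_
    by_cases hex : ∃ ρ : Ioi (0 : ℝ), (ρ : ℝ) • (θ : E d) ∈ C ∩ (closedBall 0 r₂ \ closedBall 0 r₁)
    · obtain ⟨ρ, hρC, hρ⟩ := hex
      rw [hball] at hρ
      have e1 : {ρ' : Ioi (0 : ℝ) | (ρ' : ℝ) • (θ : E d) ∈
          C ∩ (closedBall 0 r₁ \ closedBall 0 r₀)} =
          {ρ' : Ioi (0 : ℝ) | r₀ < (ρ' : ℝ) ∧ (ρ' : ℝ) ≤ r₁} := by
        ext ρ'
        rw [mem_ofPred_eq, mem_inter_iff, hball, mem_ofPred_eq]
        refine ⟨fun h => h.2, fun h => ⟨?_, h⟩⟩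
        have hρ0 : (0 : ℝ) < ρ := ρ.2
        have hρ0' : (0 : ℝ) < ρ' := ρ'.2
        have h2 := hst _ hρC ((ρ' : ℝ) / ρ) (div_pos hρ0' hρ0)
          ((div_le_one hρ0).2 (h.2.trans hρ.1.le))
        rwa [smul_smul, div_mul_cancel₀ _ hρ0.ne'] at h2
      rw [e1, mul_comm]
      refine mul_le_mul' le_rfl (measure_mono ?_)
      intro ρ' hρ'
      exact (hball _ _ _ _).1 hρ'.2
    · have e1 : {ρ' : Ioi (0 : ℝ) | (ρ' : ℝ) • (θ : E d) ∈
          C ∩ (closedBall 0 r₂ \ closedBall 0 r₁)} = ∅ := by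
        ext ρ'
        rw [mem_ofPred_eq]
        exact ⟨fun h => (hex ⟨ρ', h⟩).elim, fun h => h.elim⟩
      rw [e1, measure_empty, zero_mul]
      exact bot_le
  rw [hvol, hvol, ← mul_assoc, ← mul_assoc]
  exact mul_le_mul' key le_rfl

end POL

open POL in
theorem pf_pol : T_POL := by
  intro d hd C c hC hst r₀ r₁ r₂ h0 h01 h12
  have : Nonempty (Fin d) := ⟨⟨0, hd⟩⟩
  set C' : Set (E d) := (fun x => c + x) ⁻¹' C with hC'
  have hmC' : MeasurableSet C' := (measurable_const_add c) hC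
  have htr : ∀ r : ℝ, volume (C ∩ closedBall c r) = volume (C' ∩ closedBall 0 r) := by
    intro r
    rw [← measure_preimage_add volume c (C ∩ closedBall c r)]
    congr 1
    ext x
    simp only [hC', mem_preimage, mem_inter_iff, mem_closedBall, dist_eq_norm]
    rw [add_sub_cancel_left, sub_zero]
  have hst' : ∀ y ∈ C', ∀ t : ℝ, 0 < t → t ≤ 1 → t • y ∈ C' := by
    intro y hy t ht ht'
    have h1 := hst (c + y) hy t ht ht'
    rwa [add_sub_cancel_left] at h1
  rw [htr, htr, htr, ← vdiff C' hmC' h01, ← vdiff C' hmC' h12]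
  have key := star0 hd C' hmC' hst' r₀ r₁ r₂ h0 h01 h12
  have hfin : ∀ (A : Set (E d)) (a b : ℝ), volume (A ∩ (closedBall (0 : E d) b \ closedBall 0 a)) ≠ ∞ :=
    fun A a b => ((measure_mono (inter_subset_right.trans sdiff_subset)).trans_lt
      measure_closedBall_lt_top).ne
  have hfin' : ∀ (a b : ℝ), volume (closedBall (0 : E d) b \ closedBall 0 a) ≠ ∞ :=
    fun a b => ((measure_mono sdiff_subset).trans_lt measure_closedBall_lt_top).ne
  have hb : ∀ a b : ℝ, 0 ≤ a → a ≤ b → (volume (closedBall (0 : E d) b \ closedBall 0 a)).toReal =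
      (b ^ d - a ^ d) * (volume (ball (0 : E d) 1)).toReal := by
    intro a b ha hab
    have h1 := vdiff (univ : Set (E d)) MeasurableSet.univ hab
    rw [univ_inter, univ_inter, univ_inter, Measure.addHaar_closedBall _ _ (ha.trans hab),
      Measure.addHaar_closedBall _ _ ha, ENNReal.toReal_mul, ENNReal.toReal_mul,
      finrank_euclideanSpace, Fintype.card_fin, ENNReal.toReal_ofReal (pow_nonneg (ha.trans hab) _),
      ENNReal.toReal_ofReal (pow_nonneg ha _)] at h1
    rw [h1, sub_mul]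
  have hω : 0 < (volume (ball (0 : E d) 1)).toReal :=
    ENNReal.toReal_pos (measure_ball_pos _ _ one_pos).ne' measure_ball_lt_top.ne
  have h2 := ENNReal.toReal_mono (ENNReal.mul_ne_top (hfin _ _ _) (hfin' _ _)) key
  rw [ENNReal.toReal_mul, ENNReal.toReal_mul, hb _ _ h0 h01, hb _ _ (h0.trans h01) h12,
    ← mul_assoc, ← mul_assoc] at h2
  exact le_of_mul_le_mul_right h2 hω

end Pool.Agent.H87.PK
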