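import Pool.Agent.H97.PK.Targets2

/-!
# TNG: consequences of concavity in `r ^ d`
-/

namespace Pool.Agent.H87.PK

open Pool.Agent.H97.PK

theorem pf_tng : T_TNG := by
  intro d hd F F0 mono conc r hr
  have hd0 : d ≠ 0 := by omega
  set X : ℝ → ℝ := fun s => (s / r) ^ d with hX
  have hc : 0 < r ^ d := pow_pos hr d
  have hXs : ∀ s : ℝ, s ^ d = X s * r ^ d := by
    intro s
    simp only [hX]
    rw [← mul_pow, div_mul_cancel₀ _ hr.ne']
  have X0 : X 0 = 0 := by simp only [hX]; rw [zero_div, zero_pow hd0]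
  have X1 : X r = 1 := by simp only [hX]; rw [div_self hr.ne', one_pow]
  have conc' : ∀ r₀ r₁ r₂ : ℝ, 0 ≤ r₀ → r₀ ≤ r₁ → r₁ ≤ r₂ →
      (F r₂ - F r₁) * (X r₁ - X r₀) ≤ (F r₁ - F r₀) * (X r₂ - X r₁) := by
    intro r₀ r₁ r₂ h0 h1 h2
    have h := conc r₀ r₁ r₂ h0 h1 h2
    rw [hXs r₀, hXs r₁, hXs r₂, ← sub_mul, ← sub_mul, ← mul_assoc, ← mul_assoc] at h
    exact le_of_mul_le_mul_right h hc
  have Xlt : ∀ s t : ℝ, 0 ≤ s → s < t → X s < X t := by
    intro s t hs hst
    simp only [hX]
    exact pow_lt_pow_left₀ (div_lt_div_of_pos_right hst hr) (div_nonneg hs hr.le) hd0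
  have Fnn : ∀ s : ℝ, 0 ≤ s → 0 ≤ F s := fun s hs => F0 ▸ mono 0 s le_rfl hs
  have low : ∀ s : ℝ, 0 ≤ s → F r * min 1 (X s) ≤ F s := by
    intro s hs
    rcases le_total r s with h | h
    · calc F r * min 1 (X s) ≤ F r * 1 :=
            mul_le_mul_of_nonneg_left (min_le_left _ _) (Fnn r hr.le)
        _ ≤ F s := by rw [mul_one]; exact mono r s hr.le h
    · have h1 := conc' 0 s r le_rfl hs h
      rw [X0, X1, F0] at h1
      have h2 : F r * X s ≤ F s := by linarith
      exact (mul_le_mul_of_nonneg_left (min_le_right _ _) (Fnn r hr.le)).trans h2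
  refine ⟨low, ?_⟩
  rcases (Fnn r hr.le).eq_or_lt with hF | hF
  · refine ⟨0, le_rfl, zero_le_one, fun s hs => ?_⟩
    rw [← hF, zero_mul]
    rcases le_total s r with h | h
    · rw [hF]; exact mono s r hs h
    · rcases h.eq_or_lt with h' | h'
      · rw [← h', ← hF]
      · have h1 := conc' 0 r s le_rfl hr.le h
        rw [X0, X1, F0, ← hF] at h1
        linarith
  · set a : ℝ → ℝ := fun s => (F s - F r) / (F r * (X s - 1)) with ha
    have hE : ∀ s : ℝ, r < s → 0 < X s - 1 := by
      intro s hs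
      have := Xlt r s hr.le hs
      rw [X1] at this
      linarith
    have ha1 : ∀ s : ℝ, r < s → a s ≤ 1 := by
      intro s hs
      simp only [ha]
      rw [div_le_one (mul_pos hF (hE s hs))]
      have h1 := conc' 0 r s le_rfl hr.le hs.le
      rw [X0, X1, F0] at h1
      linarith
    have ha0 : ∀ s : ℝ, r < s → 0 ≤ a s := by
      intro s hs
      simp only [ha]
      exact div_nonneg (sub_nonneg.2 (mono r s hr.le hs.le)) (mul_pos hF (hE s hs)).le
    have hne : (a '' Set.Ioi r).Nonempty := ⟨a (r + 1), r + 1, by simp, rfl⟩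
    have hbd : BddAbove (a '' Set.Ioi r) := by
      refine ⟨1, ?_⟩
      rintro _ ⟨s, hs, rfl⟩
      exact ha1 s hs
    refine ⟨sSup (a '' Set.Ioi r), ?_, ?_, ?_⟩
    · exact (ha0 (r + 1) (by linarith)).trans (le_csSup hbd ⟨r + 1, by simp, rfl⟩)
    · refine csSup_le hne ?_
      rintro _ ⟨s, hs, rfl⟩
      exact ha1 s hs
    · intro s hs
      set γ := sSup (a '' Set.Ioi r) with hγ
      change F s ≤ F r * (1 - γ + γ * X s)
      rcases lt_trichotomy s r with h | h | h
      · have hXs1 : 0 < 1 - X s := by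
          have := Xlt s r hs h
          rw [X1] at this
          linarith
        have h1 : γ ≤ (F r - F s) / (F r * (1 - X s)) := by
          refine csSup_le hne ?_
          rintro _ ⟨s', hs', rfl⟩
          have hs'' : r < s' := hs'
          have h2 := conc' s r s' hs h.le hs''.le
          rw [X1] at h2
          simp only [ha]
          rw [div_le_div_iff₀ (mul_pos hF (hE s' hs'')) (mul_pos hF hXs1)]
          have h3 := mul_le_mul_of_nonneg_left h2 hF.le
          linarith
        rw [le_div_iff₀ (mul_pos hF hXs1)] at h1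
        linarith
      · subst h
        rw [X1]
        apply le_of_eq
        ring
      · have h1 : a s ≤ γ := le_csSup hbd ⟨s, h, rfl⟩
        simp only [ha] at h1
        rw [div_le_iff₀ (mul_pos hF (hE s h))] at h1
        linarith

end Pool.Agent.H87.PK
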