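import Pool.Agent.H3.PK.Targets

/-!
# MP_7886dd_an: module MOM (moments of the coordinates on the sphere)
-/

set_option autoImplicit false

open MeasureTheory Metric Set Pool.Agent.H3.PK
open scoped ComplexConjugate

namespace Pool.Agent.H87.PK

/-- the moment -/
noncomputable def mo {n : ℕ} (σ : Measure (S n)) (α β : Fin n → ℕ) : ℂ :=
  ∫ z : S n, (∏ i, ((z : E n) i) ^ α i) * ∏ i, conj ((z : E n) i) ^ β i ∂σ

lemma exists_neg {a b : ℕ} (h : a ≠ b) : ∃ c : ℂ, ‖c‖ = 1 ∧ c ^ a * conj c ^ b = -1 := by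
  refine ⟨Complex.exp (((Real.pi / ((a : ℝ) - b) : ℝ) : ℂ) * Complex.I), ?_, ?_⟩
  · exact Complex.norm_exp_ofReal_mul_I _
  · rw [← Complex.exp_conj, ← Complex.exp_nat_mul, ← Complex.exp_nat_mul, ← Complex.exp_add]
    have h1 : ((a : ℂ) - b) ≠ 0 := by
      rw [sub_ne_zero]
      exact_mod_cast h
    have h2 : (a : ℂ) * (((Real.pi / ((a : ℝ) - b) : ℝ) : ℂ) * Complex.I) +
        (b : ℂ) * conj (((Real.pi / ((a : ℝ) - b) : ℝ) : ℂ) * Complex.I) =
        Real.pi * Complex.I := by
      rw [map_mul, Complex.conj_ofReal, Complex.conj_I]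
      push_cast
      field_simp
      ring
    rw [h2, Complex.exp_pi_mul_I]

lemma mo_off {n : ℕ} {σ : Measure (S n)} (hσ : Inv σ) {α β : Fin n → ℕ} (h : α ≠ β) :
    mo σ α β = 0 := by
  obtain ⟨i, hi⟩ := Function.ne_iff.1 h
  obtain ⟨c, hc, hc2⟩ := exists_neg hi
  have hcc : ∀ j, ‖(Function.update (fun _ : Fin n => (1 : ℂ)) i c) j‖ = 1 := by
    intro j
    by_cases hj : j = i
    · subst hj; simp [hc]
    · simp [hj]
  have h1 := hσ.integral (dia _ hcc) (fun z : S n => (∏ j, ((z : E n) j) ^ α j) *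
    ∏ j, conj ((z : E n) j) ^ β j)
  have h2 : ∀ z : S n, (∏ j, ((act (dia _ hcc) z : E n) j) ^ α j) *
      ∏ j, conj ((act (dia _ hcc) z : E n) j) ^ β j =
      (-1) * ((∏ j, ((z : E n) j) ^ α j) * ∏ j, conj ((z : E n) j) ^ β j) := by
    intro z
    simp only [act_coe, dia_apply, map_mul, mul_pow, Finset.prod_mul_distrib]
    have h3 : (∏ j, (Function.update (fun _ : Fin n => (1 : ℂ)) i c) j ^ α j) = c ^ α i := by
      rw [Finset.prod_eq_single i]
      · simp
      · intro j _ hj; simp [hj]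
      · simp
    have h4 : (∏ j, conj ((Function.update (fun _ : Fin n => (1 : ℂ)) i c) j) ^ β j) =
        conj c ^ β i := by
      rw [Finset.prod_eq_single i]
      · simp
      · intro j _ hj; simp [hj]
      · simp
    rw [h3, h4, ← hc2]
    ring
  simp only [h2] at h1
  rw [integral_const_mul] at h1
  unfold mo
  linear_combination (-1 / 2 : ℂ) * h1

/-- the power moments of linear forms with natural coefficients -/
lemma lin_mo {n : ℕ} {σ : Measure (S n)} (hσ : Inv σ) (i₀ : Fin n) (m : ℕ) (u : Fin n → ℕ) :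
    ∫ z : S n, (∑ i, (u i : ℂ) * (z : E n) i) ^ m * conj (∑ i, (u i : ℂ) * (z : E n) i) ^ m ∂σ =
      (∑ i, (u i : ℂ) ^ 2) ^ m * ∫ z : S n, ((z : E n) i₀) ^ m * conj ((z : E n) i₀) ^ m ∂σ := by
  have := hσ.prob
  by_cases hu : u = 0
  · subst hu
    rcases Nat.eq_zero_or_pos m with hm | hm
    · subst hm; simp
    · simp [hm.ne']
  · -- the unit vector
    obtain ⟨v, hv⟩ : ∃ v : E n, v = WithLp.toLp 2 (fun i => (u i : ℂ)) := ⟨_, rfl⟩
    have hvi : ∀ i, v i = u i := fun i => by rw [hv]
    have hv0 : v ≠ 0 := by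
      intro h0
      apply hu
      ext i
      have h1 : v i = 0 := by rw [h0]; rfl
      rw [hvi] at h1
      exact Nat.cast_eq_zero.1 h1
    have hr : 0 < ‖v‖ := norm_pos_iff.2 hv0
    have hon : Orthonormal ℂ (({i₀} : Set (Fin n)).domRestrict
        (fun _ : Fin n => ((‖v‖⁻¹ : ℝ) : ℂ) • v)) := by
      constructor
      · intro i
        show ‖((‖v‖⁻¹ : ℝ) : ℂ) • v‖ = 1
        rw [norm_smul]
        simp [hr.ne']
      · intro i j hij
        exact absurd (Subsingleton.elim i j) hij
    obtain ⟨b, hb⟩ := hon.exists_orthonormalBasis_extension_of_card_eq (by simp)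
    have hb0 : b i₀ = ((‖v‖⁻¹ : ℝ) : ℂ) • v := hb i₀ rfl
    have h1 := hσ.integral b.repr (fun z : S n => ((‖v‖ : ℝ) : ℂ) ^ (2 * m) *
      (((z : E n) i₀) ^ m * conj ((z : E n) i₀) ^ m))
    rw [integral_const_mul, integral_const_mul] at h1
    have h2 : ((‖v‖ : ℝ) : ℂ) ^ (2 * m) = (∑ i, (u i : ℂ) ^ 2) ^ m := by
      rw [pow_mul]
      congr 1
      rw [← Complex.ofReal_pow, EuclideanSpace.norm_sq_eq]
      push_cast
      refine Finset.sum_congr rfl fun i _ => ?_
      rw [hvi]
      simp
    rw [← h2, ← h1, ← integral_const_mul]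
    refine integral_congr_ae (Filter.Eventually.of_forall fun z => ?_)
    simp only
    have h3 : (act b.repr z : E n) i₀ = ((‖v‖ : ℝ) : ℂ)⁻¹ * ∑ i, (u i : ℂ) * (z : E n) i := by
      rw [act_coe, OrthonormalBasis.repr_apply_apply, hb0, inner_smul_left]
      rw [PiLp.inner_apply]
      simp only [hvi]
      rw [Complex.conj_ofReal]
      push_cast
      congr 1
      refine Finset.sum_congr rfl fun i _ => ?_
      simp [mul_comm]
    rw [h3, map_mul, map_inv₀, Complex.conj_ofReal, mul_pow, mul_pow]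
    have h4 : ((‖v‖ : ℝ) : ℂ) ≠ 0 := by exact_mod_cast hr.ne'
    have h5 : ((‖v‖ : ℝ) : ℂ) ^ m * ((‖v‖ : ℝ) : ℂ)⁻¹ ^ m = 1 := by
      rw [← mul_pow, mul_inv_cancel₀ h4, one_pow]
    rw [two_mul, pow_add]
    generalize ((‖v‖ : ℝ) : ℂ)⁻¹ ^ m = d at *
    generalize ((‖v‖ : ℝ) : ℂ) ^ m = c at *
    generalize (∑ i, (u i : ℂ) * (z : E n) i) ^ m = A at *
    generalize (conj (∑ i, (u i : ℂ) * (z : E n) i)) ^ m = B at *
    linear_combination (-(A * B)) * (c * d + 1) * h5

/-- the moments of fixed degree -/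
lemma mo_sum {n : ℕ} {σ : Measure (S n)} (hσ : Inv σ) (m : ℕ) (u : Fin n → ℕ) :
    ∫ z : S n, (∑ i, (u i : ℂ) * (z : E n) i) ^ m * conj (∑ i, (u i : ℂ) * (z : E n) i) ^ m ∂σ =
      ∑ a ∈ Finset.piAntidiag Finset.univ m, ((Nat.multinomial Finset.univ a : ℂ) ^ 2 * mo σ a a) *
        ∏ i, ((u i : ℂ) ^ 2) ^ a i := by
  have := hσ.prob
  have h1 : ∀ z : E n, (∑ i, (u i : ℂ) * z i) ^ m = ∑ a ∈ Finset.piAntidiag Finset.univ m,
      (Nat.multinomial Finset.univ a : ℂ) * ((∏ i, (u i : ℂ) ^ a i) * ∏ i, z i ^ a i) := by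
    intro z
    rw [Finset.sum_pow_eq_sum_piAntidiag]
    refine Finset.sum_congr rfl fun a _ => ?_
    rw [← Finset.prod_mul_distrib]
    congr 1
    refine Finset.prod_congr rfl fun i _ => ?_
    rw [mul_pow]
  have h2 : ∀ z : E n, (∑ i, (u i : ℂ) * z i) ^ m * conj (∑ i, (u i : ℂ) * z i) ^ m =
      ∑ a ∈ Finset.piAntidiag Finset.univ m, ∑ b ∈ Finset.piAntidiag Finset.univ m,
      ((Nat.multinomial Finset.univ a : ℂ) * (Nat.multinomial Finset.univ b : ℂ) *
        ((∏ i, (u i : ℂ) ^ a i) * ∏ i, (u i : ℂ) ^ b i)) *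
        ((∏ i, z i ^ a i) * ∏ i, conj (z i) ^ b i) := by
    intro z
    rw [← map_pow, h1, map_sum, Finset.sum_mul_sum]
    refine Finset.sum_congr rfl fun a _ => Finset.sum_congr rfl fun b _ => ?_
    simp only [map_mul, map_prod, map_pow, Complex.conj_natCast]
    ring
  simp only [h2]
  have hc : ∀ (a b : Fin n → ℕ), Integrable (fun z : S n =>
      ((Nat.multinomial Finset.univ a : ℂ) * (Nat.multinomial Finset.univ b : ℂ) *
        ((∏ i, (u i : ℂ) ^ a i) * ∏ i, (u i : ℂ) ^ b i)) *
        ((∏ i, (z : E n) i ^ a i) * ∏ i, conj ((z : E n) i) ^ b i)) σ := by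
    intro a b
    refine integrable_cont σ ?_
    have h3 : ∀ i, Continuous fun z : S n => (z : E n) i := fun i => by fun_prop
    refine continuous_const.mul ((continuous_finsetProd _ fun i _ => (h3 i).pow _).mul
      (continuous_finsetProd _ fun i _ => ((Complex.continuous_conj.comp (h3 i)).pow _)))
  rw [integral_finsetSum _ fun a _ => integrable_finsetSum _ fun b _ => hc a b]
  refine Finset.sum_congr rfl fun a ha => ?_
  rw [integral_finsetSum _ fun b _ => hc a b]
  rw [Finset.sum_eq_single a]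
  · rw [integral_const_mul]
    unfold mo
    simp only [← Finset.prod_mul_distrib, ← pow_mul, ← pow_add]
    have h5 : ∀ i, (u i : ℂ) ^ (a i + a i) = (u i : ℂ) ^ (2 * a i) := fun i => by rw [two_mul]
    simp only [h5]
    ring
  · intro b _ hb
    rw [integral_const_mul]
    have h4 := mo_off hσ (Ne.symm hb)
    unfold mo at h4
    rw [h4, mul_zero]
  · intro h; exact absurd ha h

theorem mom : T_MOM := by
  intro n σ hσ
  have := hσ.prob
  rcases Nat.eq_zero_or_pos n with hn | hn
  · subst hn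
    exfalso
    have h1 : (univ : Set (S 0)) = ∅ := by
      ext z
      simp only [mem_univ, mem_empty_iff_false, iff_false, not_true]
      have h2 := z.2
      rw [mem_sphere_zero_iff_norm] at h2
      have h3 : (z : E 0) = 0 := Subsingleton.elim _ _
      rw [h3, norm_zero] at h2
      exact zero_ne_one h2
    have h2 : σ univ = 1 := measure_univ
    rw [h1, measure_empty] at h2
    exact zero_ne_one h2
  · obtain ⟨i₀⟩ : Nonempty (Fin n) := ⟨⟨0, hn⟩⟩
    obtain ⟨C, hC⟩ : ∃ C : ℕ → ℂ, C = fun m => ∫ z : S n, ((z : E n) i₀) ^ m *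
      conj ((z : E n) i₀) ^ m ∂σ := ⟨_, rfl⟩
    refine ⟨fun m => C m / m.factorial, fun α β => ?_⟩
    split_ifs with h
    · subst h
      obtain ⟨m, hm⟩ : ∃ m, m = ∑ i, α i := ⟨_, rfl⟩
      rw [← hm]
      have key : (∑ a ∈ Finset.piAntidiag Finset.univ m, MvPolynomial.monomial
          (Finsupp.equivFunOnFinite.symm a) ((Nat.multinomial Finset.univ a : ℂ) ^ 2 * mo σ a a)) =
          ∑ a ∈ Finset.piAntidiag Finset.univ m, MvPolynomial.monomial
          (Finsupp.equivFunOnFinite.symm a) ((Nat.multinomial Finset.univ a : ℂ) * C m) := by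
        refine MvPolynomial.funext_set (fun _ : Fin n => range fun x : ℕ => (x : ℂ) ^ 2)
          (fun _ => infinite_range_of_injective ?_) ?_
        · intro x y hxy
          have h1 : ((x ^ 2 : ℕ) : ℂ) = ((y ^ 2 : ℕ) : ℂ) := by
            push_cast
            exact hxy
          exact (Nat.pow_left_injective (two_ne_zero)) (Nat.cast_injective h1)
        intro x hx
        have hx' : ∀ i, ∃ u : ℕ, (u : ℂ) ^ 2 = x i := fun i => hx i (mem_univ i)
        choose u hu using hx'
        simp only [map_sum, MvPolynomial.eval_monomial]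
        have e1 : ∀ a : Fin n → ℕ, ((Finsupp.equivFunOnFinite.symm a).prod fun i e => x i ^ e) =
            ∏ i, ((u i : ℂ) ^ 2) ^ a i := by
          intro a
          rw [Finsupp.prod_fintype _ _ (by simp)]
          refine Finset.prod_congr rfl fun i _ => ?_
          rw [← hu]
          rfl
        simp only [e1]
        rw [← mo_sum hσ, lin_mo hσ i₀, Finset.sum_pow_eq_sum_piAntidiag, hC, Finset.sum_mul]
        refine Finset.sum_congr rfl fun a _ => ?_
        ring
      have h1 := congrArg (MvPolynomial.coeff (Finsupp.equivFunOnFinite.symm α)) key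
      simp only [MvPolynomial.coeff_sum, MvPolynomial.coeff_monomial] at h1
      have hα : α ∈ Finset.piAntidiag Finset.univ m := by
        rw [Finset.mem_piAntidiag]
        exact ⟨hm.symm, by simp⟩
      rw [Finset.sum_eq_single α, Finset.sum_eq_single α] at h1
      · simp only [if_true] at h1
        have h2 : (Nat.multinomial Finset.univ α : ℂ) ≠ 0 := by
          exact_mod_cast (Nat.multinomial_pos _ _).ne'
        have h3 : (Nat.multinomial Finset.univ α : ℂ) * mo σ α α = C m := by
          apply mul_left_cancel₀ h2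
          rw [← h1]
          ring
        have h4 : (∏ i, ((α i).factorial : ℂ)) * (Nat.multinomial Finset.univ α : ℂ) =
            (m.factorial : ℂ) := by
          rw [hm]
          exact_mod_cast Nat.multinomial_spec Finset.univ α
        have h5 : (m.factorial : ℂ) ≠ 0 := by exact_mod_cast m.factorial_ne_zero
        change mo σ α α = C m / (m.factorial : ℂ) * _
        rw [← h3, ← h4]
        have h6 : (∏ i, ((α i).factorial : ℂ)) ≠ 0 := by
          rw [Finset.prod_ne_zero_iff]
          intro i _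
          exact_mod_cast (α i).factorial_ne_zero
        field_simp
      all_goals
        first
        | (intro b _ hb
           rw [if_neg]
           intro h7
           exact hb (Finsupp.equivFunOnFinite.symm.injective h7))
        | (intro h7; exact absurd hα h7)
    · exact mo_off hσ h

end Pool.Agent.H87.PK
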