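import Pool.Agent.H3.PK.Targets

/-!
# MP_7886dd_an: module ST (one step of the iteration)
-/

set_option autoImplicit false

open MeasureTheory Metric Set Pool.Agent.H3.PK
open scoped ComplexConjugate

namespace Pool.Agent.H87.PK

lemma sqrt_aux {a x : ℝ} (ha : 0 ≤ a) (h1 : -1 ≤ x) (h2 : x ≤ 1) :
    √(a * (1 + x)) ≤ √a * (1 + x / 2 - x ^ 2 / 12) := by
  rw [Real.sqrt_mul ha]
  refine mul_le_mul_of_nonneg_left ?_ (Real.sqrt_nonneg _)
  have h3 : 0 ≤ 1 + x / 2 - x ^ 2 / 12 := by nlinarith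
  rw [Real.sqrt_le_left h3]
  have h4 : (1 + x / 2 - x ^ 2 / 12) ^ 2 = 1 + x + x ^ 2 * (1 - x) / 12 + x ^ 4 / 144 := by ring
  rw [h4]
  have h5 : 0 ≤ x ^ 2 * (1 - x) := mul_nonneg (sq_nonneg _) (by linarith)
  have h6 : 0 ≤ x ^ 4 := by positivity
  linarith

lemma sqrt_add_le' {a b : ℝ} (ha : 0 ≤ a) (hb : 0 ≤ b) : √(a + b) ≤ √a + √b := by
  rw [Real.sqrt_le_left (by positivity), add_sq, Real.sq_sqrt ha, Real.sq_sqrt hb]
  have := mul_nonneg (Real.sqrt_nonneg a) (Real.sqrt_nonneg b)
  linarith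

lemma ball_sq {n N : ℕ} {p : MvPolynomial (Fin n) ℂ} (hp : Ball1 N p) : Ball1 (2 * N) (p ^ 2) := by
  refine ⟨?_, fun z => ?_⟩
  · have h := hp.1.pow 2
    rwa [mul_comm] at h
  · rw [ev_pow, norm_pow]
    exact pow_le_one₀ (norm_nonneg _) (hp.2 z)

lemma re_int {n : ℕ} (σ : Measure (S n)) [IsFiniteMeasure σ] {g : S n → ℝ} (hg : Integrable g σ)
    {p : MvPolynomial (Fin n) ℂ} (hp : ∀ z : S n, ‖ev p z‖ ≤ 1) :
    Integrable (fun z => g z * (ev p z).re) σ ∧
      |∫ z, g z * (ev p z).re ∂σ| ≤ ‖∫ z, (g z : ℂ) * ev p z ∂σ‖ := by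
  have hc : Continuous fun z : S n => ev p z := continuous_evS p
  have h1 : Integrable (fun z => (g z : ℂ) * ev p z) σ := by
    refine hg.ofReal.mul_bdd (c := 1) hc.aestronglyMeasurable (Filter.Eventually.of_forall hp)
  have h2 : (fun z => g z * (ev p z).re) = fun z => ((g z : ℂ) * ev p z).re := by
    ext z
    simp
  refine ⟨?_, ?_⟩
  · rw [h2]
    exact h1.re
  · have h3 : ∫ z, g z * (ev p z).re ∂σ = (∫ z, (g z : ℂ) * ev p z ∂σ).re := by
      rw [h2]
      exact integral_re h1
    rw [h3]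
    exact Complex.abs_re_le_norm _

theorem st (h1 : T_HK2) (h2 : T_RW) (h3 : T_WS) : T_ST := by
  intro n hn
  obtain ⟨c, hc0, hc1, hRW⟩ := h2 n hn
  refine ⟨c / 24, by positivity, by linarith, ?_⟩
  intro σ hσ m F A hA ε hε
  have := hσ.prob
  -- the parameter
  obtain ⟨η, hη0, hη1, hη2⟩ : ∃ η : ℝ, 0 < η ∧ 2 * η ≤ ε ∧ η + m * √η ≤ ε := by
    have hm : (0 : ℝ) < m + 2 := by positivity
    refine ⟨min 1 ((ε / (m + 2)) ^ 2), lt_min one_pos (by positivity), ?_, ?_⟩
    all_goals
      have e1 : √(min 1 ((ε / (m + 2)) ^ 2)) ≤ ε / (m + 2) := by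
        rw [← Real.sqrt_sq (by positivity : 0 ≤ ε / (m + 2))]
        exact Real.sqrt_le_sqrt (by rw [Real.sqrt_sq (by positivity)]; exact min_le_right _ _)
      have e2 : min 1 ((ε / (m + 2)) ^ 2) ≤ √(min 1 ((ε / (m + 2)) ^ 2)) := by
        apply Real.le_sqrt_of_sq_le
        have e3 : 0 ≤ min 1 ((ε / (m + 2)) ^ 2) := le_min zero_le_one (by positivity)
        have e4 : min 1 ((ε / (m + 2)) ^ 2) ≤ 1 := min_le_left _ _
        nlinarith
      have e5 : (m + 2) * (ε / (m + 2)) = ε := by field_simp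
      have e6 : (0 : ℝ) ≤ m := Nat.cast_nonneg m
      have e7 : 0 ≤ ε / (m + 2) := by positivity
      nlinarith [mul_le_mul_of_nonneg_left e1 e6, mul_nonneg e6 e7]
  -- the functions
  obtain ⟨r, hr⟩ : ∃ r : Fin m → S n → ℝ, r = fun j (z : S n) => (ev (F j) z).re := ⟨_, rfl⟩
  have hrc : ∀ j, Continuous (r j) := by
    intro j
    rw [hr]
    exact Complex.continuous_re.comp (continuous_evS (F j))
  have hgc : Continuous fun z : S n => ∑ j, √|r j z| :=
    continuous_finsetSum _ fun j _ => ((hrc j).abs).sqrt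
  let g : C(S n, ℝ) := ⟨fun z => ∑ j, √|r j z|, hgc⟩
  have hgdef : ∀ z, g z = ∑ j, √|r j z| := fun z => rfl
  have hg0 : ∀ z, 0 ≤ g z := fun z => by
    rw [hgdef]
    exact Finset.sum_nonneg fun j _ => Real.sqrt_nonneg _
  have hgi : Integrable (fun z => g z) σ := integrable_cont σ g.continuous
  -- the degrees
  choose NF hNF using fun j => h1 n (F j) η hη0
  have hri : ∀ (j : Fin m) (B : Set (S n)), MeasurableSet B →
      Integrable (B.indicator fun z => |r j z|) σ := fun j B hB =>
    (integrable_cont σ (hrc j).abs).indicator hB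
  choose NU hNU using fun j => h3 n σ hσ (univ.indicator fun z => |r j z|)
    (hri j univ MeasurableSet.univ) η hη0
  choose NA hNA using fun j => h3 n σ hσ (A.indicator fun z => |r j z|) (hri j A hA) η hη0
  obtain ⟨NG, hNG⟩ := h3 n σ hσ (fun z => g z) hgi η hη0
  obtain ⟨N, hN⟩ : ∃ N : ℕ, N = (∑ j, NF j) + (∑ j, NU j) + (∑ j, NA j) + NG + 1 := ⟨_, rfl⟩
  have hN1 : 1 ≤ N := by omega
  have hNF' : ∀ j, NF j ≤ N := fun j => by
    have := Finset.single_le_sum (f := NF) (fun _ _ => Nat.zero_le _) (Finset.mem_univ j)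
    omega
  have hNU' : ∀ j, NU j ≤ N := fun j => by
    have := Finset.single_le_sum (f := NU) (fun _ _ => Nat.zero_le _) (Finset.mem_univ j)
    omega
  have hNA' : ∀ j, NA j ≤ N := fun j => by
    have := Finset.single_le_sum (f := NA) (fun _ _ => Nat.zero_le _) (Finset.mem_univ j)
    omega
  obtain ⟨p, hp, hpg⟩ := hRW σ inferInstance g hg0 N hN1
  choose f hf0 hff using fun j => hNF j N (hNF' j) p hp
  obtain ⟨x, hx⟩ : ∃ x : S n → ℝ, x = fun z : S n => (ev p z).re := ⟨_, rfl⟩
  have hxc : Continuous x := by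
    rw [hx]
    exact Complex.continuous_re.comp (continuous_evS p)
  have hx1 : ∀ z, |x z| ≤ 1 := fun z => by
    rw [hx]
    exact (Complex.abs_re_le_norm _).trans (hp.2 z)
  have hx2 : ∀ z, -1 ≤ x z ∧ x z ≤ 1 := fun z => abs_le.1 (hx1 z)
  -- the pointwise bound
  have hpt : ∀ (j : Fin m) (z : S n), |(ev (F j + f j) z).re| ≤ |r j z| * (1 + x z) + η := by
    intro j z
    have e1 : |(ev (f j) z).re - r j z * x z| ≤ η := by
      have e2 := Complex.abs_re_le_norm (ev (f j) z - ((ev (F j) z).re : ℂ) * ev p z)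
      have e3 : (ev (f j) z - ((ev (F j) z).re : ℂ) * ev p z).re =
          (ev (f j) z).re - r j z * x z := by
        rw [hr, hx]
        simp
      rw [e3] at e2
      exact e2.trans (hff j z)
    have e4 : (ev (F j + f j) z).re = r j z * (1 + x z) + ((ev (f j) z).re - r j z * x z) := by
      rw [ev_add, hr]
      simp only [Complex.add_re]
      ring
    rw [e4]
    refine (abs_add_le _ _).trans ?_
    rw [abs_mul, abs_of_nonneg (by linarith [(hx2 z).1] : 0 ≤ 1 + x z)]
    linarith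
  have hnm : ∀ (j : Fin m) (B : Set (S n)), MeasurableSet B →
      ‖∫ z, ((B.indicator (fun z => |r j z|) z : ℝ) : ℂ) * ev p z ∂σ‖ ≤ η →
      nm σ B (F j + f j) ≤ nm σ B (F j) + ε := by
    intro j B hB hw
    unfold nm
    have i1 : Integrable (fun z => |r j z|) σ := integrable_cont σ (hrc j).abs
    have i2 : Integrable (fun z => |r j z| * x z) σ := integrable_cont σ ((hrc j).abs.mul hxc)
    have i3 : Integrable (fun z : S n => |(ev (F j + f j) z).re|) σ :=
      integrable_cont σ (Complex.continuous_re.comp (continuous_evS _)).abs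
    have i4 : Integrable (fun _ : S n => η) σ := integrable_const η
    have e1 : ∫ z in B, |(ev (F j + f j) z).re| ∂σ ≤ ∫ z in B, (|r j z| + |r j z| * x z + η) ∂σ := by
      refine setIntegral_mono i3.integrableOn ((i1.add i2).add i4).integrableOn fun z => ?_
      refine (hpt j z).trans (le_of_eq ?_)
      ring
    have e2 : ∫ z in B, (|r j z| + |r j z| * x z + η) ∂σ =
        (∫ z in B, |r j z| ∂σ) + (∫ z in B, |r j z| * x z ∂σ) + ∫ z in B, η ∂σ := by
      have i5 : Integrable (fun z => |r j z| + |r j z| * x z) σ := i1.add i2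
      rw [integral_add i5.integrableOn i4.integrableOn,
        integral_add i1.integrableOn i2.integrableOn]
    have e3 : ∫ z in B, η ∂σ ≤ η := by
      rw [setIntegral_const, smul_eq_mul]
      have : σ.real B ≤ 1 := measureReal_le_one
      nlinarith
    have e4 : ∫ z in B, |r j z| * x z ∂σ = ∫ z, B.indicator (fun z => |r j z|) z * (ev p z).re ∂σ := by
      rw [← integral_indicator hB]
      refine integral_congr_ae (Filter.Eventually.of_forall fun z => ?_)
      simp only
      by_cases hz : z ∈ B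
      · rw [indicator_of_mem hz, indicator_of_mem hz, hx]
      · rw [indicator_of_notMem hz, indicator_of_notMem hz, zero_mul]
    have e5 := (le_abs_self _).trans (re_int σ (hri j B hB) hp.2).2
    have e6 : ∫ z in B, |r j z| ∂σ = ∫ z in B, |(ev (F j) z).re| ∂σ := by rw [hr]
    linarith
  refine ⟨fun j => F j + f j, fun j => ?_, fun j => ?_, fun j => ?_, ?_⟩
  · rw [map_add, hf0, add_zero]
  · exact hnm j univ MeasurableSet.univ (hNU j N (hNU' j) p hp)
  · exact hnm j A hA (hNA j N (hNA' j) p hp)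
  · -- the square roots
    have e1 : ∀ j, hf σ (F j + f j) ≤ ∫ z, (√|r j z| * (1 + x z / 2 - x z ^ 2 / 12) + √η) ∂σ := by
      intro j
      unfold hf
      refine integral_mono (integrable_cont σ (Complex.continuous_re.comp
        (continuous_evS _)).abs.sqrt) (integrable_cont σ (by fun_prop)) fun z => ?_
      simp only
      calc √|(ev (F j + f j) z).re| ≤ √(|r j z| * (1 + x z) + η) := Real.sqrt_le_sqrt (hpt j z)
        _ ≤ √(|r j z| * (1 + x z)) + √η := sqrt_add_le' (mul_nonneg (abs_nonneg _) (by linarith [(hx2 z).1])) hη0.le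
        _ ≤ _ := by
          have := sqrt_aux (abs_nonneg (r j z)) (hx2 z).1 (hx2 z).2
          linarith
    have i1 : Integrable (fun z => g z * x z) σ := integrable_cont σ (g.continuous.mul hxc)
    have i2 : Integrable (fun z : S n => g z * ‖ev p z‖ ^ 2) σ :=
      integrable_cont σ (g.continuous.mul ((continuous_evS p).norm.pow 2))
    have i3 : Integrable (fun z : S n => g z * (ev (p ^ 2) z).re) σ :=
      integrable_cont σ (g.continuous.mul (Complex.continuous_re.comp (continuous_evS _)))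
    have e2 : ∑ j, hf σ (F j + f j) ≤ ∫ z, (g z + 1 / 2 * (g z * x z) -
        1 / 24 * (g z * ‖ev p z‖ ^ 2) - 1 / 24 * (g z * (ev (p ^ 2) z).re) + m * √η) ∂σ := by
      refine (Finset.sum_le_sum fun j _ => e1 j).trans (le_of_eq ?_)
      rw [← integral_finsetSum _ fun j _ => integrable_cont σ (by fun_prop)]
      refine integral_congr_ae (Filter.Eventually.of_forall fun z => ?_)
      simp only
      rw [Finset.sum_add_distrib, ← Finset.sum_mul, Finset.sum_const, Finset.card_univ,
        Fintype.card_fin, nsmul_eq_mul, ← hgdef]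
      have e3 : ‖ev p z‖ ^ 2 = x z ^ 2 + (ev p z).im ^ 2 := by
        rw [← Complex.normSq_eq_norm_sq, Complex.normSq_apply, hx]
        ring
      have e4 : (ev (p ^ 2) z).re = x z ^ 2 - (ev p z).im ^ 2 := by
        rw [ev_pow, sq, Complex.mul_re, hx]
        ring
      rw [e3, e4]
      ring
    have e5 : ∫ z, (g z + 1 / 2 * (g z * x z) -
        1 / 24 * (g z * ‖ev p z‖ ^ 2) - 1 / 24 * (g z * (ev (p ^ 2) z).re) + m * √η) ∂σ =
        ∫ z, g z ∂σ + 1 / 2 * ∫ z, g z * x z ∂σ - 1 / 24 * ∫ z, g z * ‖ev p z‖ ^ 2 ∂σ -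
        1 / 24 * ∫ z, g z * (ev (p ^ 2) z).re ∂σ + m * √η := by
      have i4 : Integrable (fun z => 1 / 2 * (g z * x z)) σ := i1.const_mul _
      have i5 : Integrable (fun z : S n => 1 / 24 * (g z * ‖ev p z‖ ^ 2)) σ := i2.const_mul _
      have i6 : Integrable (fun z : S n => 1 / 24 * (g z * (ev (p ^ 2) z).re)) σ := i3.const_mul _
      have i7 : Integrable (fun z => g z + 1 / 2 * (g z * x z)) σ := hgi.add i4
      have i8 : Integrable (fun z : S n => g z + 1 / 2 * (g z * x z) -
        1 / 24 * (g z * ‖ev p z‖ ^ 2)) σ := i7.sub i5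
      have i9 : Integrable (fun z : S n => g z + 1 / 2 * (g z * x z) -
        1 / 24 * (g z * ‖ev p z‖ ^ 2) - 1 / 24 * (g z * (ev (p ^ 2) z).re)) σ := i8.sub i6
      rw [integral_add i9 (integrable_const _), integral_sub i8 i6, integral_sub i7 i5,
        integral_add hgi i4, integral_const_mul, integral_const_mul,
        integral_const_mul, integral_const]
      simp
    have e6 : |∫ z, g z * (ev p z).re ∂σ| ≤ η :=
      (re_int σ hgi hp.2).2.trans (hNG N (by omega) p hp)
    have e7 : |∫ z, g z * (ev (p ^ 2) z).re ∂σ| ≤ η :=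
      (re_int σ hgi (ball_sq hp).2).2.trans (hNG (2 * N) (by omega) _ (ball_sq hp))
    have e8 : ∫ z, g z * x z ∂σ = ∫ z, g z * (ev p z).re ∂σ := by rw [hx]
    have e9 : ∑ j, hf σ (F j) = ∫ z, g z ∂σ := by
      unfold hf
      have i10 : ∀ j ∈ (Finset.univ : Finset (Fin m)),
          Integrable (fun z : S n => √|(ev (F j) z).re|) σ := fun j _ => integrable_cont σ
        (Complex.continuous_re.comp (continuous_evS _)).abs.sqrt
      rw [← integral_finsetSum _ i10]
      refine integral_congr_ae (Filter.Eventually.of_forall fun z => ?_)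
      simp only
      rw [hgdef, hr]
    rw [e9]
    have e10 := (abs_le.1 e6).2
    have e11 := (abs_le.1 e7).1
    linarith

end Pool.Agent.H87.PK
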